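import Pool.Agent.H637R2.Gott.MonoMain

/-! # Gottschalk's conjecture for order-preserving cellular automata, over every group -/

set_option autoImplicit false

namespace Pool.Agent.Results.MP_095f99_an.OrderPreservingAutomata

open Pool.Agent.H637R2.Gott

/-- An injective cellular automaton over `G` with the alphabet `A`: a continuous injective map
`A^G → A^G` commuting with the shifts `(g x)(h) = x (g⁻¹ h)`. -/
def InjCA {G A : Type} [Group G] [TopologicalSpace A] (τ : (G → A) → (G → A)) : Prop :=
  Continuous τ ∧ (∀ (g : G) (x : G → A), τ (fun h => x (g⁻¹ * h)) = fun h => τ x (g⁻¹ * h)) ∧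
    Function.Injective τ

/-- `σ` preserves or reverses the pointwise order of some partial order of `A` that has a least
and a greatest element. -/
def OrderPreservingOrReversing {G A : Type} (σ : (G → A) → (G → A)) : Prop :=
  ∃ (_ : PartialOrder A) (_ : BoundedOrder A),
    (∀ x y : G → A, (∀ g, x g ≤ y g) → ∀ g, σ x g ≤ σ y g) ∨
      (∀ x y : G → A, (∀ g, x g ≤ y g) → ∀ g, σ y g ≤ σ x g)

/-- Some symbol `q` is persistent up to a translation: `x(g) = q` forces `σ(x)(g s) = q`. -/
def Persistent {G A : Type} [Group G] (σ : (G → A) → (G → A)) : Prop :=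
  ∃ (q : A) (s : G), ∀ (x : G → A) (g : G), x g = q → σ x (g * s) = q

theorem three {X : Type} {α τ β : X → X} (h1 : Function.Injective α) (h2 : Function.Injective τ)
    (h3 : Function.Injective β) (h : Function.Surjective (fun x => α (τ (β x)))) :
    Function.Bijective α ∧ Function.Bijective τ ∧ Function.Bijective β := by
  have ha : Function.Surjective (α ∘ (τ ∘ β)) := h
  have hb : Function.Surjective (τ ∘ β) := ha.of_comp_left h1
  exact ⟨⟨h1, ha.of_comp⟩, ⟨h2, hb.of_comp⟩, ⟨h3, hb.of_comp_left h2⟩⟩

theorem comp3 {G A : Type} [Group G] [TopologicalSpace A] {α τ β : (G → A) → (G → A)}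
    (hα : InjCA α) (hτ : InjCA τ) (hβ : InjCA β) : InjCA (fun x => α (τ (β x))) := by
  refine ⟨hα.1.comp (hτ.1.comp hβ.1), ?_, hα.2.2.comp (hτ.2.2.comp hβ.2.2)⟩
  intro g x
  show α (τ (β (fun h => x (g⁻¹ * h)))) = _
  rw [hβ.2.1 g x, hτ.2.1 g (β x), hα.2.1 g (τ (β x))]

theorem surj {G A : Type} [Group G] [Finite A] [TopologicalSpace A] [DiscreteTopology A]
    {σ : (G → A) → (G → A)} (hσ : InjCA σ)
    (h : OrderPreservingOrReversing σ ∨ Persistent σ) : Function.Surjective σ := by
  have := Fintype.ofFinite A
  rcases h with ⟨_, _, h | h⟩ | ⟨q, s, h⟩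
  · exact mono_surj σ hσ.1 hσ.2.1 hσ.2.2 (fun x y hxy g => h x y hxy g)
  · exact anti_surj σ hσ.1 hσ.2.1 hσ.2.2 (fun x y hxy g => h x y hxy g)
  · exact persistent_surj σ hσ.1 hσ.2.2 q s h

/-- **Gottschalk's conjecture for order-preserving cellular automata, over every group.**
Let `G` be any group and `A` a finite discrete alphabet.
(1) If a composition `α ∘ τ ∘ β` of three injective cellular automata over `G` preserves or
reverses the order of some bounded partial order on `A`, or has a persistent symbol, then
`α`, `τ` and `β` are bijective.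
(2) If some positive iterate of an injective cellular automaton has one of these properties,
then the automaton is surjective.
(3) If `X` is a closed shift-invariant subset of `A^G` and `e : A^G → X` is an isomorphism of
compact `G`-spaces with one of these properties, then `X` is all of `A^G`. -/
theorem result (G : Type) [Group G] (A : Type) [Finite A] [TopologicalSpace A]
    [DiscreteTopology A] :
    (∀ α τ β : (G → A) → (G → A), InjCA α → InjCA τ → InjCA β →
      (OrderPreservingOrReversing (fun x => α (τ (β x))) ∨ Persistent (fun x => α (τ (β x)))) →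
      Function.Bijective α ∧ Function.Bijective τ ∧ Function.Bijective β) ∧
    (∀ (τ : (G → A) → (G → A)) (k : ℕ), InjCA τ → 0 < k →
      (OrderPreservingOrReversing (τ^[k]) ∨ Persistent (τ^[k])) → Function.Surjective τ) ∧
    (∀ (X : Set (G → A)), IsClosed X → (∀ (g : G), ∀ x ∈ X, (fun h => x (g⁻¹ * h)) ∈ X) →
      ∀ e : (G → A) ≃ₜ X,
        (∀ (g : G) (x : G → A),
          ((e (fun h => x (g⁻¹ * h)) : X) : G → A) = fun h => ((e x : X) : G → A) (g⁻¹ * h)) →
        (OrderPreservingOrReversing (fun x => ((e x : X) : G → A)) ∨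
          Persistent (fun x => ((e x : X) : G → A))) →
        X = Set.univ) := by
  refine ⟨?_, ?_, ?_⟩
  · intro α τ β hα hτ hβ h
    exact three hα.2.2 hτ.2.2 hβ.2.2 (surj (comp3 hα hτ hβ) h)
  · intro τ k hτ hk h
    have hit : ∀ n : ℕ, InjCA (τ^[n]) := by
      intro n
      refine ⟨hτ.1.iterate n, ?_, hτ.2.2.iterate n⟩
      induction n with
      | zero => intro g x; rfl
      | succ n ih =>
        intro g x
        rw [Function.iterate_succ_apply', Function.iterate_succ_apply', ih g x,
          hτ.2.1 g (τ^[n] x)]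
    obtain ⟨m, rfl⟩ : ∃ m, k = m + 1 := ⟨k - 1, by omega⟩
    have hs : Function.Surjective (τ^[m + 1]) := surj (hit (m + 1)) h
    intro y
    obtain ⟨x, hx⟩ := hs y
    exact ⟨τ^[m] x, (Function.iterate_succ_apply' τ m x).symm.trans hx⟩
  · intro X _ _ e he h
    have hca : InjCA (fun x => ((e x : X) : G → A)) :=
      ⟨continuous_subtype_val.comp e.continuous, he, Subtype.val_injective.comp e.injective⟩
    have hs := surj hca h
    ext y
    simp only [Set.mem_univ, iff_true]
    obtain ⟨x, hx⟩ := hs y
    rw [← hx]
    exact (e x).2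

end Pool.Agent.Results.MP_095f99_an.OrderPreservingAutomata
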